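import Pool.Agent.REV.StmtsA1

set_option autoImplicit false

namespace Pool.Agent.REV.H5

open Set Pool.Agent.REV

theorem pow_id {q u D a b : ℝ} (hq : 0 < q) (hu : 0 ≤ u) (hD : 0 < D) (hb : b = a + 3 / 2) :
    q * D ^ (-(3 / 2) : ℝ) * (q * u / D) ^ a = q ^ (-(1 / 2) : ℝ) * (u ^ a * (q / D) ^ b) := by
  rw [Real.div_rpow (mul_nonneg hq.le hu) hD.le, Real.mul_rpow hq.le hu,
    Real.div_rpow hq.le hD.le]
  have h1 : q ^ b = q * q ^ (1 / 2 : ℝ) * q ^ a := by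
    rw [hb, show a + 3 / 2 = 1 + 1 / 2 + a by ring, Real.rpow_add hq, Real.rpow_add hq,
      Real.rpow_one]
  have h2 : D ^ b = D ^ (3 / 2 : ℝ) * D ^ a := by
    rw [hb, show a + 3 / 2 = 3 / 2 + a by ring, Real.rpow_add hD]
  rw [h1, h2, Real.rpow_neg hq.le, Real.rpow_neg hD.le]
  have e1 : q ^ (1 / 2 : ℝ) ≠ 0 := (Real.rpow_pos_of_pos hq _).ne'
  have e2 : D ^ (3 / 2 : ℝ) ≠ 0 := (Real.rpow_pos_of_pos hD _).ne'
  have e3 : D ^ a ≠ 0 := (Real.rpow_pos_of_pos hD _).ne'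
  field_simp

theorem cva (chv : ChvStmt) (tau : TauStmt) : CvaStmt := by
  intro n g c f hn hg hc0 hc1
  unfold RA RA'
  rw [chv g c hg hc0 hc1 (fun r => (1 - r ^ 2) ^ (((n : ℝ) - 2) / 2) * f (r * c)),
    ← intervalIntegral.integral_const_mul]
  rw [intervalIntegral.integral_of_le zero_le_one, intervalIntegral.integral_of_le zero_le_one,
    MeasureTheory.integral_Ioc_eq_integral_Ioo, MeasureTheory.integral_Ioc_eq_integral_Ioo]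
  refine MeasureTheory.setIntegral_congr_fun measurableSet_Ioo ?_
  intro ρ hρ
  obtain ⟨hD, hq, _⟩ := (tau g hg).1 c ρ hc0 hc1 hρ.1.le hρ.2.le
  have hρ2 : 0 < 1 - ρ ^ 2 := by nlinarith [hρ.1, hρ.2]
  simp only
  unfold El
  have hta : ρ / Real.sqrt (1 + (g - 1) * c ^ 2 * (1 - ρ ^ 2)) * c = ta g c ρ := by
    unfold ta; ring
  have hsq : Real.sqrt (1 + (g - 1) * c ^ 2 * (1 - ρ ^ 2)) ^ 2 =
      1 + (g - 1) * c ^ 2 * (1 - ρ ^ 2) := Real.sq_sqrt hD.le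
  rw [hta]
  have h1 : 1 - (ρ / Real.sqrt (1 + (g - 1) * c ^ 2 * (1 - ρ ^ 2))) ^ 2 =
      (1 + (g - 1) * c ^ 2) * (1 - ρ ^ 2) / (1 + (g - 1) * c ^ 2 * (1 - ρ ^ 2)) := by
    rw [div_pow, hsq]
    field_simp
    ring
  have h2 : 1 + (g - 1) * ta g c ρ ^ 2 =
      (1 + (g - 1) * c ^ 2) / (1 + (g - 1) * c ^ 2 * (1 - ρ ^ 2)) := by
    unfold ta
    rw [div_pow, hsq]
    field_simp
    ring
  rw [h1, h2]
  have h3 := pow_id (q := 1 + (g - 1) * c ^ 2) (u := 1 - ρ ^ 2)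
    (D := 1 + (g - 1) * c ^ 2 * (1 - ρ ^ 2)) (a := ((n : ℝ) - 2) / 2)
    (b := ((n : ℝ) + 1) / 2) hq hρ2.le hD (by ring)
  calc _ = ((1 + (g - 1) * c ^ 2) * (1 + (g - 1) * c ^ 2 * (1 - ρ ^ 2)) ^ (-(3 / 2) : ℝ) *
        ((1 + (g - 1) * c ^ 2) * (1 - ρ ^ 2) / (1 + (g - 1) * c ^ 2 * (1 - ρ ^ 2))) ^
          (((n : ℝ) - 2) / 2)) * f (ta g c ρ) := by ring
    _ = _ := by rw [h3]; ring

end Pool.Agent.REV.H5
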