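import Pool.Agent.REV.StmtsV

/-!
# Squad REV, row VPS: the weight psd
-/

set_option autoImplicit false

noncomputable section

namespace Pool.Agent.REV.H5

open Pool.Agent.REV Set MeasureTheory Filter
open scoped Topology

theorem vps : VpsStmt := by
  intro n b hn hb
  have hn4 : (4 : ℝ) ≤ (n : ℝ) := by exact_mod_cast hn
  have hm0 : 0 ≤ ((n : ℝ) - 4) / 2 := by linarith
  have hm1 : 0 < ((n : ℝ) - 2) / 2 := by linarith
  have hb1 : 0 < 1 / b := by positivity
  have hpos : ∀ s : ℝ, 1 / b ≤ s → 1 ≤ (b * s) ^ 2 := by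
    intro s hs
    have h1 : 1 ≤ b * s := by
      have := mul_le_mul_of_nonneg_left hs hb.le
      rwa [mul_one_div_cancel hb.ne'] at this
    exact one_le_pow₀ h1
  have hpos' : ∀ s : ℝ, 1 / b < s → 1 < (b * s) ^ 2 := by
    intro s hs
    have h1 : 1 < b * s := by
      have := mul_lt_mul_of_pos_left hs hb
      rwa [mul_one_div_cancel hb.ne'] at this
    exact one_lt_pow₀ h1 (by norm_num)
  refine ⟨fun s hs => ?_, fun β hβ => ?_⟩
  · have h1 := hpos' s hs
    have h2 : 0 < ((b * s) ^ 2)⁻¹ := by positivity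
    have h3 : ((b * s) ^ 2)⁻¹ ≤ 1 := inv_le_one_of_one_le₀ h1.le
    have hw0 : 0 ≤ wb b s := by unfold wb; linarith
    have hw1 : wb b s ≤ 1 := by unfold wb; linarith
    have hA := Real.rpow_nonneg hw0 (((n : ℝ) - 2) / 2)
    have hB := Real.rpow_nonneg hw0 (((n : ℝ) - 4) / 2)
    have hA1 := Real.rpow_le_one hw0 hw1 hm1.le
    have hB1 := Real.rpow_le_one hw0 hw1 hm0
    have hn2 : 0 ≤ (n : ℝ) - 2 := by linarith
    unfold psd
    constructor
    · exact add_nonneg hA (mul_nonneg (mul_nonneg hn2 h2.le) hB)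
    · have h4 : ((n : ℝ) - 2) * ((b * s) ^ 2)⁻¹ ≤ (n : ℝ) - 2 :=
        mul_le_of_le_one_right hn2 h3
      have h5 : ((n : ℝ) - 2) * ((b * s) ^ 2)⁻¹ * wb b s ^ (((n : ℝ) - 4) / 2) ≤ (n : ℝ) - 2 :=
        (mul_le_of_le_one_right (mul_nonneg hn2 h2.le) hB1).trans h4
      linarith
  · have hcw : ContinuousOn (wb b) (Icc (1 / b) β) := by
      unfold wb
      refine continuousOn_const.sub (ContinuousOn.inv₀ (by fun_prop) fun s hs => ?_)
      have := hpos s hs.1
      linarith
    have hcp : ContinuousOn (psd n b) (Icc (1 / b) β) := by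
      unfold psd
      refine (hcw.rpow_const fun s _ => Or.inr hm1.le).add
        (ContinuousOn.mul ?_ (hcw.rpow_const fun s _ => Or.inr hm0))
      refine continuousOn_const.mul (ContinuousOn.inv₀ (by fun_prop) fun s hs => ?_)
      have := hpos s hs.1
      linarith
    have hint : IntervalIntegrable (psd n b) volume (1 / b) β :=
      ContinuousOn.intervalIntegrable_of_Icc hβ hcp
    refine ⟨hint, ?_⟩
    have hcf : ContinuousOn (fun s : ℝ => s * wb b s ^ (((n : ℝ) - 2) / 2)) (Icc (1 / b) β) :=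
      continuousOn_id.mul (hcw.rpow_const fun s _ => Or.inr hm1.le)
    have hd : ∀ s ∈ Ioo (1 / b) β,
        HasDerivAt (fun s : ℝ => s * wb b s ^ (((n : ℝ) - 2) / 2)) (psd n b s) s := by
      intro s hs
      have h1 := hpos' s hs.1
      have hs0 : 0 < s := lt_trans hb1 hs.1
      have hbs : (b * s) ^ 2 ≠ 0 := by positivity
      have hw : 0 < wb b s := by
        unfold wb
        have h3 : ((b * s) ^ 2)⁻¹ < 1 := inv_lt_one_of_one_lt₀ h1
        linarith
      have d1 : HasDerivAt (fun s : ℝ => (b * s) ^ 2) (2 * (b * s) * b) s := by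
        have := ((hasDerivAt_id s).const_mul b).pow 2
        refine this.congr_deriv ?_
        simp only [id]
        ring
      have d2 : HasDerivAt (wb b) (2 * (b * s) * b / ((b * s) ^ 2) ^ 2) s := by
        have := (d1.inv hbs).const_sub 1
        refine this.congr_deriv ?_
        ring
      have d3 := (hasDerivAt_id s).mul (d2.rpow_const (p := ((n : ℝ) - 2) / 2) (Or.inl hw.ne'))
      refine d3.congr_deriv ?_
      simp only [id]
      have e1 : ((n : ℝ) - 2) / 2 - 1 = ((n : ℝ) - 4) / 2 := by ring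
      rw [e1]
      unfold psd
      have e2 : s * (2 * (b * s) * b / ((b * s) ^ 2) ^ 2) = 2 * ((b * s) ^ 2)⁻¹ := by
        field_simp
      calc 1 * wb b s ^ (((n : ℝ) - 2) / 2) + s * (2 * (b * s) * b / ((b * s) ^ 2) ^ 2 *
            (((n : ℝ) - 2) / 2) * wb b s ^ (((n : ℝ) - 4) / 2))
          = wb b s ^ (((n : ℝ) - 2) / 2) + (s * (2 * (b * s) * b / ((b * s) ^ 2) ^ 2)) *
            (((n : ℝ) - 2) / 2) * wb b s ^ (((n : ℝ) - 4) / 2) := by ring
        _ = _ := by
          rw [e2]
          ring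
    rw [intervalIntegral.integral_eq_sub_of_hasDerivAt_of_le hβ hcf hd hint]
    have h0 : wb b (1 / b) = 0 := by
      unfold wb
      rw [mul_one_div_cancel hb.ne']
      norm_num
    rw [h0, Real.zero_rpow hm1.ne', mul_zero, sub_zero]

end Pool.Agent.REV.H5
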